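import Pool.Agent.W206.MS.Final

/-! The reduction of the monoid Stark conjecture to larger orders without the condition on the
square roots, and the classes for which that condition is automatic. -/

namespace Pool.Agent.U8.MSW

open Pool.Agent.W206.MS

section main

variable {K : Type*} [Field K] [CharZero K] [Algebra K ℝ]

/-- The assertion of the monoid Stark conjecture for `O` and `m`, with the condition (iv) on the
square root only for the `a` with `T a`. -/
def StarkOn (σ : K →+* ℝ) (O : Subalgebra ℤ K) (m : Submodule ℤ K)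
    (T : Submodule ℤ K → Prop) : Prop :=
  ∃ (H : IntermediateField K ℝ) (Art : Submodule ℤ K → (H ≃ₐ[K] H)),
    IsRayClassField σ O m H Art ∧
    ∃ ε : Submodule ℤ K → H, ∀ a, InMonoid O m a →
      (∀ b, InMonoid O m b → Rel O m σ b a → ε b = ε a) ∧
      (IsIntegral ℤ (ε a : ℝ) ∧ IsIntegral ℤ (ε a : ℝ)⁻¹) ∧
      CondI σ O m a (ε a) ∧ CondII O m H Art ε a ∧ CondIII σ H (ε a) ∧
      (T a → CondIV H (ε a))

omit [CharZero K] in
theorem stark_on_iff (σ : K →+* ℝ) (O : Subalgebra ℤ K) (m : Submodule ℤ K) :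
    StarkOn σ O m (fun _ => True) ↔ MonoidStark σ O m := by
  simp only [StarkOn, MonoidStark, true_imp_iff]

omit [CharZero K] in
/-- The square root of a product, if the factors without square root have even exponents. -/
theorem sqrt_prod_mem' {ι : Type*} [Fintype ι] (M : IntermediateField K ℝ) (x : ι → ℝ) (n : ι → ℕ)
    (hx : ∀ i, 0 < x i) (hxM : ∀ i, x i ∈ M) (hM : ∀ i, Real.sqrt (x i) ∈ M ∨ Even (n i)) :
    Real.sqrt (∏ i, x i ^ n i) ∈ M := by
  have : Real.sqrt (∏ i, x i ^ n i) = ∏ i, Real.sqrt (x i) ^ n i := by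
    rw [Real.sqrt_eq_iff_mul_self_eq (Finset.prod_nonneg fun i _ => pow_nonneg (hx i).le _)
      (Finset.prod_nonneg fun i _ => pow_nonneg (Real.sqrt_nonneg _) _),
      ← Finset.prod_mul_distrib]
    refine Finset.prod_congr rfl fun i _ => ?_
    rw [← mul_pow, Real.mul_self_sqrt (hx i).le]
  rw [this]
  refine M.prod_mem fun i _ => ?_
  rcases hM i with h | h
  · exact pow_mem h (n i)
  · obtain ⟨k, hk⟩ := h
    rw [hk, pow_add, ← mul_pow, Real.mul_self_sqrt (hx i).le]
    exact pow_mem (hxM i) k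

theorem reduction_on (σ : K →+* ℝ) {O O' : Subalgebra ℤ K} {m : Submodule ℤ K}
    (P : Pair O O' m (m / OL O')) {T : Submodule ℤ K → Prop}
    (h : StarkOn σ O' (m / OL O') T) :
    StarkOn σ O m (fun a => ∀ I, IsInv O' I → I ≤ OL O' → T I ∨ Even (nn O O' m σ I a)) := by
  classical
  have hO' : O' ≤ integralClosure ℤ K := mem_maxOrder_of_fg P.fg'
  obtain ⟨H', Art', ⟨⟨hfd, hab⟩, ⟨hmul, hsurj, hker⟩, hfrob⟩, ε', hε'⟩ := h
  have hA : Chr O' (m / OL O') σ Art' := ⟨hmul, hsurj, hker⟩
  have hfinG : Finite (H' ≃ₐ[K] H') := inferInstance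
  have hfinQ : Finite (QQ P.mB σ) := P.finite_classes Art' hmul fun x hx h => (hker x hx).1 h
  have : Fintype (QQ P.mB σ) := Fintype.ofFinite _
  obtain ⟨H, hle, res, hHfd, hHab, hres, hresker, hresval, hfix⟩ := exists_res H' (gam P hA)
  have hmon' : ∀ I, IsInv O' I → I ≤ OL O' → InMonoid O' (m / OL O') I := fun I h1 h2 =>
    inMonoid_of_le P.mB h1 h2
  have hcongr : ∀ I J, IsInv O' I → I ≤ OL O' → IsInv O' J → J ≤ OL O' →
      REq O' (m / OL O') σ I J → ε' I = ε' J := by
    intro I J hI hI' hJ hJ' hIJ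
    have h1 := (hε' J (hmon' J hJ hJ')).1
    exact h1 I (hmon' I hI hI') ((rel_iff P.mB P.fin' (hmon' J hJ hJ')).2 hIJ)
  set E : Submodule ℤ K → H' := fun a => EE (σ := σ) P ε' a with hE
  have hEc : ∀ a c, REq O m σ a c → E a = E c := fun a c hac => EE_congr P ε' hac
  -- action of the good ideals
  have hact : ∀ g a, Good O (m / OL O') g → OL O * a = a → Art' (OL O' * g) (E a) = E (g * a) := by
    intro g a hg ha
    have h1 := EE_mul (σ := σ) P ε' hcongr ha hg
    rw [hE]
    simp only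
    rw [← h1]
    unfold EE
    rw [map_prod]
    refine Finset.prod_congr rfl fun q _ => ?_
    rw [map_pow]
    congr 1
    exact (hε' _ (hmon' _ (rep_inv q) (rep_le q))).2.2.2.1 _ ((P.good_ext hg).inJ P.mB)
  have hsm : ∀ a (α : K), InMonoid O m a → α - 1 ∈ Loc O m m → 0 < σ α → E (sm α a) = E a :=
    fun a α ha h1 h2 => hEc _ _ (REq.sm_left P.mM h1 h2 ha.2)
  have hEH : ∀ a, InMonoid O m a → ((E a : H') : ℝ) ∈ H := by
    intro a ha
    apply hfix
    rintro τ ⟨α, h1, h2, h3, rfl⟩
    rw [hact _ a h1 ha.1.stable, sm_mul, ha.1.stable, hsm a α ha h2 h3]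
  set ε : Submodule ℤ K → H := fun a => if h : ((E a : H') : ℝ) ∈ H then ⟨(E a : ℝ), h⟩ else 1
    with hε
  have hεv : ∀ a, InMonoid O m a → ((ε a : H) : ℝ) = ((E a : H') : ℝ) := by
    intro a ha
    simp only [hε]
    rw [dif_pos (hEH a ha)]
  have hεE : ∀ a, InMonoid O m a → (⟨((ε a : H) : ℝ), hle (ε a).2⟩ : H') = E a := by
    intro a ha
    exact Subtype.ext (hεv a ha)
  have hpos : ∀ q : QQ P.mB σ, 0 < ((ε' (rep q) : H') : ℝ) := by
    intro q
    obtain ⟨F, hF, hFe⟩ := (hε' _ (hmon' _ (rep_inv q) (rep_le q))).2.2.1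
    have h1 := hF.deriv_real
    have h2 : deriv F 0 = ((deriv F 0).re : ℂ) := by
      apply Complex.ext <;> simp [h1]
    rw [h2, ← Complex.ofReal_neg, ← Complex.ofReal_exp] at hFe
    rw [Complex.ofReal_injective hFe]
    exact Real.exp_pos _
  have hEval : ∀ a, ((E a : H') : ℝ) =
      ∏ q : QQ P.mB σ, ((ε' (rep q) : H') : ℝ) ^ nn O O' m σ (rep q) a := by
    intro a
    simp only [hE, EE]
    push_cast
    rfl
  refine ⟨H, fun a => res (Art' (OL O' * rr O m (m / OL O') σ a)), ⟨⟨hHfd, hHab⟩, ⟨?_, ?_, ?_⟩,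
    ?_⟩, ε, ?_⟩
  · intro x y hx hy
    rw [← map_mul, ← mul_inv_eq_one, ← map_inv, ← map_mul, hresker]
    exact hA.art_mul P hx hy
  · intro g
    obtain ⟨τ, rfl⟩ := hres g
    obtain ⟨x, hx, hx'⟩ := hA.art_surj P τ
    exact ⟨x, hx, by simp only [hx']⟩
  · intro x hx
    rw [hresker]
    exact hA.art_ker P hx
  · intro I hI hcop x hx
    have hdiv : (m / OL O') / OL (integralClosure ℤ K) = m / OL (integralClosure ℤ K) := by
      ext z
      simp only [Submodule.mem_div_iff_forall_mul_mem]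
      constructor
      · intro h1 y hy
        have := h1 y hy 1 (one_mem_OL O')
        simpa using this
      · intro h1 y hy w hw
        rw [mul_assoc]
        exact h1 _ ((integralClosure ℤ K).mul_mem hy (hO' hw))
    have hfx := hfrob I hI (by rw [hdiv]; exact hcop) ⟨(x : ℝ), hle x.2⟩ hx
    refine Eq.mp ?_ hfx
    congr 2
    -- the contraction of `I` to `O` is prime to `b`
    have h1 : ∃ e ∈ contr I O, 1 - e ∈ m / OL O' := by
      have h2 : (1 : K) ∈ contr I (integralClosure ℤ K) ⊔ m / OL (integralClosure ℤ K) := by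
        rw [hcop]; exact one_mem_OL _
      obtain ⟨e, he, z, hz, hez⟩ := Submodule.mem_sup.1 h2
      have hzb : z ∈ m / OL O' := by
        rw [Submodule.mem_div_iff_forall_mul_mem] at hz ⊢
        exact fun y hy => hz y (hO' hy)
      have h3 : 1 - e = z := by rw [← hez]; ring
      refine ⟨e, (mem_contr hI).2 ⟨?_, ((mem_contr hI).1 he).2⟩, by rw [h3]; exact hzb⟩
      exact P.one_sub (by rw [h3]; exact hzb)
    obtain ⟨e, he, he'⟩ := h1
    have h4 : rr O m (m / OL O') σ (contr I O) = contr I O :=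
      rr_of_le (fun x hx => ((mem_contr hI).1 hx).1) he he'
    simp only [h4, contr_ext P hI hO' he he']
    exact (hresval _ x).symm
  · intro a ha
    have hEa := hεv a ha
    refine ⟨?_, ⟨?_, ?_⟩, ?_, ?_, ?_, ?_⟩
    · intro c hc hca
      have h1 : E c = E a := hEc _ _ ((rel_iff P.mM P.fin_m ha).1 hca)
      apply Subtype.ext
      rw [hεv c hc, hEa, h1]
    · rw [hEa, hEval a]
      refine IsIntegral.prod _ fun q _ => IsIntegral.pow ?_ _
      exact (hε' _ (hmon' _ (rep_inv q) (rep_le q))).2.1.1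
    · rw [hEa, hEval a, ← Finset.prod_inv_distrib]
      refine IsIntegral.prod _ fun q _ => ?_
      rw [← inv_pow]
      exact IsIntegral.pow (hε' _ (hmon' _ (rep_inv q) (rep_le q))).2.1.2 _
    · have hF : ∀ q : QQ P.mB σ, ∃ F, IsZ O' (m / OL O') σ (rep q) F ∧
          ((ε' (rep q) : ℝ) : ℂ) = Complex.exp (- deriv F 0) := fun q =>
        (hε' _ (hmon' _ (rep_inv q) (rep_le q))).2.2.1
      choose F hF1 hF2 using hF
      refine ⟨_, P.isZ ha F hF1, ?_⟩
      have hd : ∀ q, DifferentiableAt ℂ (F q) 0 := fun q =>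
        (hF1 q).2.differentiableAt (isOpen_compl_singleton.mem_nhds (by norm_num))
      have h1 : deriv (fun s => ∑ q, (nn O O' m σ (rep q) a : ℂ) * F q s) 0 =
          ∑ q, (nn O O' m σ (rep q) a : ℂ) * deriv (F q) 0 := by
        rw [deriv_fun_sum fun q _ => (hd q).const_mul _]
        exact Finset.sum_congr rfl fun q _ => deriv_const_mul _ (hd q)
      rw [h1, ← Finset.sum_neg_distrib, Complex.exp_sum, hEa, hEval a]
      push_cast
      refine Finset.prod_congr rfl fun q _ => ?_
      rw [hF2 q, ← Complex.exp_nat_mul]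
      congr 1
      ring
    · intro c hc
      obtain ⟨α, a1, a2, a3, a4⟩ := P.rr_spec (σ := σ) hc
      have hca : InMonoid O m (c * a) := (hc.inMonoid P.mM).mul P.mM ha
      apply Subtype.ext
      rw [hresval, hεE a ha, a4, hact _ a a3 ha.1.stable, sm_mul, hsm _ α hca a1 a2, hεv _ hca]
    · intro τ hτ
      obtain ⟨τ', h1⟩ := extend_hom (IntermediateField.inclusion hle) τ
      have h2 : ∀ x : K, τ' (algebraMap K H' x) = ((σ x : ℝ) : ℂ) := by
        intro x
        rw [← hτ x]
        exact h1 (algebraMap K H x)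
      have h3 : τ (ε a) = τ' (E a) := by
        rw [← h1, ← hεE a ha]
        rfl
      rw [h3]
      simp only [hE, EE]
      rw [map_prod, norm_prod]
      refine Finset.prod_eq_one fun q _ => ?_
      rw [map_pow, norm_pow]
      have h4 := (hε' _ (hmon' _ (rep_inv q) (rep_le q))).2.2.2.2.1 τ' h2
      rw [h4, one_pow]
    · intro hT
      have hq : ∀ q : {q : QQ P.mB σ // T (rep q)}, IsAbelianGalois K
          (H' ⊔ IntermediateField.adjoin K {Real.sqrt (ε' (rep q.1) : ℝ)} :
            IntermediateField K ℝ) := fun q =>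
        (hε' _ (hmon' _ (rep_inv q.1) (rep_le q.1))).2.2.2.2.2 q.2
      let N : Option {q : QQ P.mB σ // T (rep q)} → IntermediateField K ℝ := fun o =>
        match o with
        | none => H'
        | some q => (H' ⊔ IntermediateField.adjoin K {Real.sqrt (ε' (rep q.1) : ℝ)} :
            IntermediateField K ℝ)
      have hN : ∀ o, IsAbelianGalois K (N o) := by
        rintro (_ | q)
        · exact hab
        · exact hq q
      let M : IntermediateField K ℝ := ⨆ o, N o
      have hM : IsAbelianGalois K M := isAbelianGalois_iSup _ hN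
      have hH'M : H' ≤ M := le_iSup N none
      have hqM : ∀ q : {q : QQ P.mB σ // T (rep q)}, (H' ⊔ IntermediateField.adjoin K
          {Real.sqrt (ε' (rep q.1) : ℝ)} : IntermediateField K ℝ) ≤ M := fun q =>
        le_iSup N (some q)
      have hle2 : (H ⊔ IntermediateField.adjoin K {Real.sqrt (ε a : ℝ)} :
          IntermediateField K ℝ) ≤ M := by
        refine sup_le (hle.trans hH'M) ?_
        rw [IntermediateField.adjoin_le_iff, Set.singleton_subset_iff, hEa, hEval a]
        refine sqrt_prod_mem' M _ _ hpos (fun q => hH'M (ε' (rep q)).2) fun q => ?_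
        rcases hT (rep q) (rep_inv q) (rep_le q) with h1 | h1
        · refine Or.inl (hqM ⟨q, h1⟩ ?_)
          exact (le_sup_right : _ ≤ (H' ⊔ IntermediateField.adjoin K
            {Real.sqrt (ε' (rep q) : ℝ)} : IntermediateField K ℝ))
            (IntermediateField.mem_adjoin_simple_self K _)
        · exact Or.inr h1
      exact isAbelianGalois_le hle2

omit [Algebra K ℝ] in
/-- A unit `u` of `O'`, not in `O` but with `u ^ 2` in `O`, which acts on the ideals of the class,
makes the multiplicities even. -/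
theorem even_nn {σ : K →+* ℝ} {O O' : Subalgebra ℤ K} {m b : Submodule ℤ K}
    (P : Pair O O' m b) {a I : Submodule ℤ K} (hI : IsInv O' I)
    {u : K} (hu : u ∈ O') (hu' : u⁻¹ ∈ O') (hσ : 0 < σ u) (hn : u ∉ O) (h2 : u ^ 2 ∈ O)
    (h2' : (u ^ 2)⁻¹ ∈ O)
    (hact : ∀ x, IsInv O x → x ≤ OL O → REq O m σ x a → ∀ z ∈ x, (u - 1) * z ∈ b) :
    Even (nn O O' m σ I a) := by
  classical
  have h0 : u ≠ 0 := ne_zero_of_pos hσ
  have hfin := P.XS_finite (σ := σ) (a := a) hI
  by_cases hemp : XS O O' m σ I a = ∅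
  · unfold nn; rw [hemp]; simp
  have hIO : I ≤ OL O' := by
    obtain ⟨x, hx⟩ := Set.nonempty_iff_ne_empty.2 hemp
    rw [← hx.2.2.2, Submodule.mul_le]
    exact fun y hy z hz => O'.mul_mem hy (P.le (hx.2.1 hz))
  have hstab : I = sm u I := by
    apply le_antisymm
    · intro z hz
      have : z = u * (u⁻¹ * z) := by field_simp
      rw [this]
      exact mul_mem_sm (hI.smul_mem hu' hz)
    · rw [sm_le_iff]
      exact fun z hz => hI.smul_mem hu hz
  have hb : ∀ z ∈ I, ∀ x, x ∈ XS O O' m σ I a → (u - 1) * z ∈ b := by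
    intro z hz x hx
    rw [← hx.2.2.2] at hz
    induction hz using Submodule.mul_induction_on' with
    | mem_mul_mem w hw y hy =>
      have : (u - 1) * (w * y) = w * ((u - 1) * y) := by ring
      rw [this]
      exact P.mB.mul w hw _ (hact x hx.1 hx.2.1 hx.2.2.1 y hy)
    | add p _ q _ ihp ihq => rw [mul_add]; exact b.add_mem ihp ihq
  have hmaps : ∀ x ∈ XS O O' m σ I a, sm u x ∈ XS O O' m σ I a := fun x hx =>
    P.XS_map hσ (fun z hz => loc_of_mem P.mB (hb z hz x hx)) hstab hIO hx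
  have hsq : ∀ x ∈ XS O O' m σ I a, sm u (sm u x) = x := by
    intro x hx
    rw [sm_sm]
    have e : u * u = u ^ 2 := by ring
    rw [e]
    apply le_antisymm
    · rw [sm_le_iff]
      exact fun z hz => hx.1.smul_mem h2 hz
    · intro z hz
      have : z = u ^ 2 * ((u ^ 2)⁻¹ * z) := by field_simp
      rw [this]
      exact mul_mem_sm (hx.1.smul_mem h2' hz)
  have hne : ∀ x ∈ XS O O' m σ I a, sm u x ≠ x := by
    intro x hx h
    apply hn
    obtain ⟨hst, y, hy, hxy⟩ := hx.1
    have h1 : sm u (OL O) = OL O := by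
      rw [← hxy, ← sm_mul, h]
    have h3 : u * 1 ∈ sm u (OL O) := mul_mem_sm (one_mem_OL O)
    rw [h1, mul_one] at h3
    exact h3
  unfold nn
  rw [Set.ncard_eq_toFinset_card _ hfin]
  have : Even (hfin.toFinset.card) := by
    have h4 : ∑ x ∈ hfin.toFinset, (1 : ZMod 2) = 0 := by
      refine Finset.sum_involution (fun x _ => sm u x) ?_ ?_ ?_ ?_
      · intro x _; decide
      · intro x hx _
        exact hne x (hfin.mem_toFinset.1 hx)
      · intro x hx
        exact hfin.mem_toFinset.2 (hmaps x (hfin.mem_toFinset.1 hx))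
      · intro x hx
        exact hsq x (hfin.mem_toFinset.1 hx)
    rw [Finset.sum_const, nsmul_eq_mul, mul_one] at h4
    exact (ZMod.natCast_eq_zero_iff_even).1 h4
  exact this

theorem StarkOn.mono {σ : K →+* ℝ} {O : Subalgebra ℤ K} {m : Submodule ℤ K}
    {T T' : Submodule ℤ K → Prop} (h : StarkOn σ O m T)
    (hT : ∀ a, InMonoid O m a → T' a → T a) : StarkOn σ O m T' := by
  obtain ⟨H, Art, h1, ε, h2⟩ := h
  refine ⟨H, Art, h1, ε, fun a ha => ?_⟩
  obtain ⟨a1, a2, a3, a4, a5, a6⟩ := h2 a ha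
  exact ⟨a1, a2, a3, a4, a5, fun h => a6 (hT a ha h)⟩

/-- If `m` is an ideal of `O'` it is its own colon ideal. -/
theorem colon_eq {O O' : Subalgebra ℤ K} {m : Submodule ℤ K} (hst : OL O' * m ≤ m) :
    m / OL O' = m := by
  apply le_antisymm
  · intro z hz
    rw [Submodule.mem_div_iff_forall_mul_mem] at hz
    simpa using hz 1 (one_mem_OL O')
  · intro z hz
    rw [Submodule.mem_div_iff_forall_mul_mem]
    intro y hy
    rw [mul_comm]
    exact hst (Submodule.mul_mem_mul hy hz)

/-- The condition on the unit need only be checked for one ideal of the class. -/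
theorem act_of_one {σ : K →+* ℝ} {O O' : Subalgebra ℤ K} {m : Submodule ℤ K} (hm : Md O m)
    (hle : O ≤ O') (hst : OL O' * m ≤ m) {a : Submodule ℤ K} {u : K} (hu : u ∈ O')
    (ha : ∀ z ∈ a, (u - 1) * z ∈ m) :
    ∀ x, IsInv O x → x ≤ OL O → REq O m σ x a → ∀ z ∈ x, (u - 1) * z ∈ m := by
  rintro x - hxO ⟨κ, -, h1, rfl⟩ z hz
  obtain ⟨w, hw, rfl⟩ := mem_sm.1 hz
  obtain ⟨s, hs, h2⟩ := h1 w hw
  have hu1 : u - 1 ∈ O' := O'.sub_mem hu O'.one_mem
  -- `s * ((u - 1) * (κ * w))` lies in `m`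
  have h3 : s * ((u - 1) * (κ * w)) ∈ m := by
    have : s * ((u - 1) * (κ * w)) =
        (u - 1) * (s * ((κ - 1) * w)) + s * ((u - 1) * w) := by ring
    rw [this]
    exact m.add_mem (hst (Submodule.mul_mem_mul hu1 h2)) (hm.mul _ hs.mem _ (ha w hw))
  obtain ⟨t, ht, h4⟩ := ((cop_iff hm).1 hs).2
  have h5 : (u - 1) * (κ * w) ∈ O' := O'.mul_mem hu1 (hle (hxO hz))
  have : (u - 1) * (κ * w) = t * (s * ((u - 1) * (κ * w))) +
      ((u - 1) * (κ * w)) * (1 - s * t) := by ring
  rw [this]
  exact m.add_mem (hm.mul _ ht _ h3) (hst (Submodule.mul_mem_mul h5 h4))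

end main

end Pool.Agent.U8.MSW
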